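import Pool.Agent.W739.CY.Stm

set_option autoImplicit false
set_option linter.all false

namespace Pool.Agent.W918.CY

open Finset
open Pool.Agent.W739.CY

section lists

variable {C : Type}

/-- proper words -/
def Prp (w : List C) : Prop := ∀ (i : ℕ) (x : C), w[i]? = some x → w[i + 1]? = some x → False

theorem Prp_cons (x : C) (u : List C) : Prp (x :: u) ↔ (∀ y, u[0]? = some y → x ≠ y) ∧ Prp u := by
  constructor
  · intro h
    constructor
    · rintro y hy rfl
      exact h 0 x (by simp) (by simpa using hy)
    · intro i y h1 h2
      exact h (i + 1) y (by simpa using h1) (by simpa using h2)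
  · rintro ⟨h1, h2⟩ i y h3 h4
    rcases i with _ | i
    · simp at h3 h4
      exact h1 y (by simpa using h4) h3
    · exact h2 i y (by simpa using h3) (by simpa using h4)

theorem Prp_nil : Prp ([] : List C) := by
  intro i x h _
  simp at h

theorem get_er (w : List C) (k i : ℕ) : (w.eraseIdx k)[i]? = if i < k then w[i]? else w[i + 1]? := by
  rw [List.getElem?_eraseIdx]

theorem notPrp_erase (w : List C) (k : ℕ) (h : Prp w) (h2 : ¬ Prp (w.eraseIdx k)) :
    ∃ x, 1 ≤ k ∧ w[k - 1]? = some x ∧ w[k + 1]? = some x := by
  unfold Prp at h2
  push Not at h2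
  obtain ⟨i, x, h3, h4, -⟩ := h2
  rw [get_er] at h3 h4
  by_cases c1 : i + 1 < k
  · rw [if_pos (by omega)] at h3
    rw [if_pos c1] at h4
    exact absurd h4 (fun h4 => h i x h3 h4)
  · rw [if_neg c1] at h4
    by_cases c2 : i < k
    · rw [if_pos c2] at h3
      have hk : k = i + 1 := by omega
      subst hk
      exact ⟨x, by omega, by simpa using h3, h4⟩
    · rw [if_neg c2] at h3
      exact absurd h4 (fun h4 => h (i + 1) x h3 h4)

theorem erase_comm (w : List C) (t s : ℕ) (h : t ≤ s) :
    (w.eraseIdx t).eraseIdx s = (w.eraseIdx (s + 1)).eraseIdx t := by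
  apply List.ext_getElem?
  intro i
  simp only [get_er]
  split_ifs <;> first | rfl | omega

/-- if the difference is not zero then the two letters are neighbours -/
theorem far (w : List C) (u t : ℕ) (hw : Prp w) (h1 : u + 1 < t) (hD : Prp ((w.eraseIdx t).eraseIdx u)) :
    Prp (w.eraseIdx t) ∧ Prp (w.eraseIdx u) := by
  constructor
  · by_contra hc
    obtain ⟨x, h2, h3, h4⟩ := notPrp_erase w t hw hc
    refine hD (t - 2) x ?_ ?_
    · simp only [get_er]
      rw [if_neg (by omega), if_pos (by omega)]
      rw [show t - 2 + 1 = t - 1 by omega]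
      exact h3
    · simp only [get_er]
      rw [if_neg (by omega), if_neg (by omega)]
      rw [show t - 2 + 1 + 1 + 1 = t + 1 by omega]
      exact h4
  · by_contra hc
    obtain ⟨x, h2, h3, h4⟩ := notPrp_erase w u hw hc
    refine hD (u - 1) x ?_ ?_
    · simp only [get_er]
      rw [if_pos (by omega), if_pos (by omega)]
      exact h3
    · simp only [get_er]
      rw [if_neg (by omega), if_pos (by omega)]
      rw [show u - 1 + 1 + 1 = u + 1 by omega]
      exact h4

theorem shift_eq (w : List C) (u : ℕ) (hw : Prp w) (h : ¬ Prp (w.eraseIdx (u + 1))) :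
    (w.eraseIdx (u + 1)).eraseIdx u = (w.eraseIdx (u + 2)).eraseIdx (u + 1) := by
  obtain ⟨x, h2, h3, h4⟩ := notPrp_erase w (u + 1) hw h
  rw [Nat.add_sub_cancel] at h3
  apply List.ext_getElem?
  intro i
  simp only [get_er]
  rcases lt_trichotomy i u with c | c | c
  · rw [if_pos c, if_pos (by omega), if_pos (by omega), if_pos (by omega)]
  · subst c
    rw [if_neg (by omega), if_neg (by omega), if_pos (by omega), if_pos (by omega), h3]
    exact h4
  · rw [if_neg (by omega), if_neg (by omega), if_neg (by omega), if_neg (by omega)]

theorem prp_first (w : List C) (hw : Prp w) : Prp (w.eraseIdx 0) := by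
  by_contra hc
  obtain ⟨x, h2, -, -⟩ := notPrp_erase w 0 hw hc
  omega

theorem prp_last (w : List C) (n : ℕ) (hn : w.length = n + 1) (hw : Prp w) : Prp (w.eraseIdx n) := by
  by_contra hc
  obtain ⟨x, h2, h3, h4⟩ := notPrp_erase w n hw hc
  rw [List.getElem?_eq_none (by omega)] at h4
  exact absurd h4 (by simp)

theorem prp_reverse (w : List C) (hw : Prp w) : Prp w.reverse := by
  intro i x h1 h2
  have hi : i + 1 < w.length := by
    by_contra hc
    rw [List.getElem?_eq_none (by simp; omega)] at h2
    exact absurd h2 (by simp)
  rw [List.getElem?_reverse' (j := w.length - 2 - i + 1) (by omega)] at h1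
  rw [List.getElem?_reverse' (j := w.length - 2 - i) (by omega)] at h2
  exact hw _ x h2 h1

theorem reverse_erase (w : List C) (i : ℕ) (hi : i < w.length) :
    w.reverse.eraseIdx i = (w.eraseIdx (w.length - 1 - i)).reverse := by
  have hl : (w.eraseIdx (w.length - 1 - i)).length = w.length - 1 := List.length_eraseIdx_of_lt (by omega)
  apply List.ext_getElem?
  intro j
  by_cases hj : j < w.length - 1
  · rw [List.getElem?_reverse' (l := w.eraseIdx (w.length - 1 - i)) (j := w.length - 2 - j) (by omega), get_er, get_er]
    by_cases c : j < i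
    · rw [if_pos c, if_neg (by omega), List.getElem?_reverse' (j := w.length - 2 - j + 1) (by omega)]
    · rw [if_neg c, if_pos (by omega), List.getElem?_reverse' (j := w.length - 2 - j) (by omega)]
  · rw [List.getElem?_eq_none, List.getElem?_eq_none]
    · rw [List.length_reverse, hl]
      omega
    · rw [List.length_eraseIdx_of_lt (by rw [List.length_reverse]; exact hi), List.length_reverse]
      omega

end lists

/-- double sums -/
theorem dsum (m : ℕ) (h : ℕ → ℕ → ℝ) :
    ∑ t ∈ range (m + 1), ∑ s ∈ range m, h t (if s < t then s else s + 1) =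
      ∑ t ∈ range (m + 1), ∑ u ∈ range t, (h t u + h u t) := by
  have h1 : ∀ t ∈ range (m + 1), ∑ s ∈ range m, h t (if s < t then s else s + 1) =
      ∑ u ∈ range t, h t u + ∑ u ∈ Ico (t + 1) (m + 1), h t u := by
    intro t ht
    rw [mem_range] at ht
    rw [← sum_range_add_sum_Ico _ (show t ≤ m by omega)]
    congr 1
    · apply sum_congr rfl
      intro s hs
      rw [mem_range] at hs
      rw [if_pos hs]
    · rw [← sum_Ico_add' (fun u => h t u) t m 1]
      apply sum_congr rfl
      intro s hs
      rw [mem_Ico] at hs
      rw [if_neg (by omega)]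
  rw [sum_congr rfl h1, sum_add_distrib]
  simp only [sum_add_distrib]
  congr 1
  apply sum_comm'
  intro x y
  simp only [mem_range, mem_Ico]
  omega

section main

variable {C : Type} (p : ℝ) (B : List C → ℝ)

theorem delta (hp : Good p) (hB0 : ∀ w, ¬ Prp w → B w = 0)
    (hB : ∀ w, Prp w → w ≠ [] → (1 - p ^ w.length) * B w =
      ∑ i ∈ range w.length, p ^ (w.length - 1 - i) * B (w.eraseIdx i)) :
    ∀ (m : ℕ) (w : List C), w.length = m → Prp w →
      ∑ i ∈ range m, (p ^ (m - 1 - i) - p ^ i) * B (w.eraseIdx i) = 0 := by
  classical
  intro m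
  induction m with
  | zero =>
    intro w hw _
    simp
  | succ n ih =>
    intro w hw hwp
    rcases n with _ | n
    · simp
    · -- length n + 2
      have hlen : ∀ t ∈ range (n + 2), (w.eraseIdx t).length = n + 1 := by
        intro t ht
        rw [mem_range] at ht
        rw [List.length_eraseIdx_of_lt (by omega), hw]
        rfl
      set a : ℕ → ℝ := fun t => if Prp (w.eraseIdx t) then 1 else 0 with ha
      have hR : ∀ t ∈ range (n + 2), (1 - p ^ (n + 1)) * B (w.eraseIdx t) =
          a t * ∑ s ∈ range (n + 1), p ^ (n - s) * B ((w.eraseIdx t).eraseIdx s) := by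
        intro t ht
        by_cases c : Prp (w.eraseIdx t)
        · have h1 := hB _ c (by
            intro h
            have := hlen t ht
            rw [h] at this
            simp at this)
          rw [hlen t ht] at h1
          rw [h1, ha]
          simp only [if_pos c, one_mul]
          rfl
        · rw [hB0 _ c, ha]
          simp only [if_neg c]
          ring
      have hL : ∀ t ∈ range (n + 2), (1 - p ^ (n + 1)) * B (w.eraseIdx t) =
          a t * ∑ s ∈ range (n + 1), p ^ s * B ((w.eraseIdx t).eraseIdx s) := by
        intro t ht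
        rw [hR t ht]
        by_cases c : Prp (w.eraseIdx t)
        · have h1 := ih (w.eraseIdx t) (hlen t ht) c
          have h2 : ∑ s ∈ range (n + 1), p ^ (n - s) * B ((w.eraseIdx t).eraseIdx s) -
              ∑ s ∈ range (n + 1), p ^ s * B ((w.eraseIdx t).eraseIdx s) = 0 := by
            rw [← h1, ← sum_sub_distrib]
            apply sum_congr rfl
            intro s _
            rw [Nat.add_sub_cancel]
            ring
          rw [sub_eq_zero.1 h2]
        · rw [ha]
          simp only [if_neg c]
          ring
      have hne : (1 - p ^ (n + 1)) ≠ 0 := hp.sub n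
      apply mul_left_cancel₀ hne
      rw [mul_zero, mul_sum]
      -- the function of pairs
      set D : ℕ → ℕ → ℝ := fun u t => B ((w.eraseIdx t).eraseIdx u) with hD
      set h : ℕ → ℕ → ℝ := fun t u => if u < t then
          a t * ((p ^ (n + 1 - t) * p ^ u - p ^ t * p ^ (n - u)) * D u t) else
          a t * ((p ^ (n + 1 - t) * p ^ (u - 1) - p ^ t * p ^ (n - (u - 1))) * D t u) with hh
      have hterm : ∀ t ∈ range (n + 2), (1 - p ^ (n + 1)) * ((p ^ (n + 2 - 1 - t) - p ^ t) * B (w.eraseIdx t)) =
          ∑ s ∈ range (n + 1), h t (if s < t then s else s + 1) := by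
        intro t ht
        have e1 : (1 - p ^ (n + 1)) * ((p ^ (n + 2 - 1 - t) - p ^ t) * B (w.eraseIdx t)) =
            p ^ (n + 1 - t) * ((1 - p ^ (n + 1)) * B (w.eraseIdx t)) -
              p ^ t * ((1 - p ^ (n + 1)) * B (w.eraseIdx t)) := by
          rw [show n + 2 - 1 - t = n + 1 - t by omega]
          ring
        rw [e1]
        nth_rewrite 1 [hL t ht]
        rw [hR t ht, mul_sum, mul_sum, mul_sum, mul_sum, ← sum_sub_distrib]
        apply sum_congr rfl
        intro s hs
        rw [hh]
        by_cases c : s < t
        · simp only [if_pos c]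
          rw [hD]
          ring
        · have c2 : ¬ (s + 1 < t) := by omega
          simp only [if_neg c, if_neg c2, Nat.add_sub_cancel]
          rw [hD]
          simp only
          rw [erase_comm w t s (by omega)]
          ring
      rw [sum_congr rfl hterm, dsum (n + 1) h]
      -- pairs
      have hpair : ∀ t ∈ range (n + 1 + 1), ∑ u ∈ range t, (h t u + h u t) =
          ∑ u ∈ range t, if u + 1 = t then (p ^ n - p ^ (n + 1)) * ((a (u + 1) - a u) * D u (u + 1)) else 0 := by
        intro t ht
        rw [mem_range] at ht
        apply sum_congr rfl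
        intro u hu
        rw [mem_range] at hu
        have e1 : h t u + h u t = (p ^ (n + 1 - t) * p ^ u - p ^ t * p ^ (n - u)) * ((a t - a u) * D u t) := by
          rw [hh]
          have c1 : ¬ (t < u) := by omega
          simp only [if_pos hu, if_neg c1]
          obtain ⟨d, rfl⟩ : ∃ d, t = u + 1 + d := ⟨t - u - 1, by omega⟩
          obtain ⟨e, rfl⟩ : ∃ e, n = u + d + e := ⟨n - u - d, by omega⟩
          rw [show u + d + e + 1 - (u + 1 + d) = e by omega, show u + d + e - u = d + e by omega,
            show u + 1 + d - 1 = u + d by omega, show u + d + e + 1 - u = d + e + 1 by omega,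
            show u + d + e - (u + d) = e by omega]
          ring
        rw [e1]
        by_cases c : u + 1 = t
        · rw [if_pos c]
          subst c
          have e2 : p ^ (n + 1 - (u + 1)) * p ^ u = p ^ n := by
            rw [← pow_add]
            congr 1
            omega
          have e3 : p ^ (u + 1) * p ^ (n - u) = p ^ (n + 1) := by
            rw [← pow_add]
            congr 1
            omega
          rw [e2, e3]
        · rw [if_neg c]
          by_cases hDp : Prp ((w.eraseIdx t).eraseIdx u)
          · obtain ⟨f1, f2⟩ := far w u t hwp (by omega) hDp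
            have : a t - a u = 0 := by
              rw [ha]
              simp only [if_pos f1, if_pos f2]
              ring
            rw [this]
            ring
          · have : D u t = 0 := hB0 _ hDp
            rw [this]
            ring
      rw [sum_congr rfl hpair]
      have hone : ∑ t ∈ range (n + 1 + 1), ∑ u ∈ range t,
          (if u + 1 = t then (p ^ n - p ^ (n + 1)) * ((a (u + 1) - a u) * D u (u + 1)) else 0) =
          ∑ u ∈ range (n + 1), (p ^ n - p ^ (n + 1)) * ((a (u + 1) - a u) * D u (u + 1)) := by
        rw [sum_range_succ' (fun t => ∑ u ∈ range t,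
          (if u + 1 = t then (p ^ n - p ^ (n + 1)) * ((a (u + 1) - a u) * D u (u + 1)) else 0)) (n + 1)]
        rw [range_zero, sum_empty, add_zero]
        apply sum_congr rfl
        intro t _
        rw [sum_range_succ, if_pos rfl]
        rw [sum_eq_zero, zero_add]
        intro u hu
        rw [mem_range] at hu
        rw [if_neg (by omega)]
      rw [hone, ← mul_sum]
      have htel : ∑ u ∈ range (n + 1), (a (u + 1) - a u) * D u (u + 1) = 0 := by
        have a0 : a 0 = 1 := by
          rw [ha]
          simp only [if_pos (prp_first w hwp)]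
        have an : a (n + 1) = 1 := by
          rw [ha]
          simp only [if_pos (prp_last w (n + 1) hw hwp)]
        have hsh : ∀ u ∈ range n, (1 - a (u + 1)) * D (u + 1) (u + 2) = (1 - a (u + 1)) * D u (u + 1) := by
          intro u _
          by_cases c : Prp (w.eraseIdx (u + 1))
          · have : a (u + 1) = 1 := by
              rw [ha]
              simp only [if_pos c]
            rw [this]
            ring
          · rw [hD]
            simp only
            rw [shift_eq w u hwp c]
        have e1 : ∑ u ∈ range (n + 1), (a (u + 1) - a u) * D u (u + 1) =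
            ∑ u ∈ range (n + 1), (1 - a u) * D u (u + 1) - ∑ u ∈ range (n + 1), (1 - a (u + 1)) * D u (u + 1) := by
          rw [← sum_sub_distrib]
          exact sum_congr rfl fun u _ => by ring
        rw [e1, sum_range_succ' (fun u => (1 - a u) * D u (u + 1)) n, a0, sum_range_succ (fun u => (1 - a (u + 1)) * D u (u + 1)) n, an]
        rw [sum_congr rfl hsh]
        ring
      rw [htel, mul_zero]

theorem rev (hp : Good p) (hB0 : ∀ w, ¬ Prp w → B w = 0)
    (hB : ∀ w, Prp w → w ≠ [] → (1 - p ^ w.length) * B w =
      ∑ i ∈ range w.length, p ^ (w.length - 1 - i) * B (w.eraseIdx i)) :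
    ∀ (m : ℕ) (w : List C), w.length = m → B w.reverse = B w := by
  intro m
  induction m with
  | zero =>
    intro w hw
    rw [List.length_eq_zero_iff] at hw
    rw [hw]
    rfl
  | succ n ih =>
    intro w hw
    by_cases c : Prp w
    · have hr := prp_reverse w c
      have hne : w ≠ [] := by
        intro h
        rw [h] at hw
        simp at hw
      have h1 := hB _ hr (by simpa using hne)
      have h2 := hB w c hne
      have h3 := delta p B hp hB0 hB (n + 1) w hw c
      rw [List.length_reverse, hw] at h1
      rw [hw] at h2
      have h4 : ∑ i ∈ range (n + 1), p ^ (n + 1 - 1 - i) * B (w.reverse.eraseIdx i) =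
          ∑ i ∈ range (n + 1), p ^ i * B (w.eraseIdx i) := by
        rw [← sum_range_reflect (fun i => p ^ i * B (w.eraseIdx i)) (n + 1)]
        apply sum_congr rfl
        intro i hi
        rw [mem_range] at hi
        rw [reverse_erase w i (by omega), hw]
        rw [ih (w.eraseIdx (n + 1 - 1 - i)) (by
          rw [List.length_eraseIdx_of_lt (by omega)]
          omega)]
      rw [h4] at h1
      have h5 : ∑ i ∈ range (n + 1), p ^ i * B (w.eraseIdx i) =
          ∑ i ∈ range (n + 1), p ^ (n + 1 - 1 - i) * B (w.eraseIdx i) := by
        rw [eq_comm, ← sub_eq_zero, ← sum_sub_distrib, ← h3]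
        exact sum_congr rfl fun i _ => by ring
      rw [h5, ← h2] at h1
      exact mul_left_cancel₀ (hp.sub n) h1
    · have hr : ¬ Prp w.reverse := by
        intro h
        apply c
        have := prp_reverse _ h
        rwa [List.reverse_reverse] at this
      rw [hB0 _ c, hB0 _ hr]

end main

theorem spl_sum {C : Type} (w : List C) : ∀ g : List C → ℕ → ℝ,
    spl (fun v _ u => g (v ++ u) u.length) w = ∑ i ∈ range w.length, g (w.eraseIdx i) (w.length - 1 - i) := by
  induction w with
  | nil =>
    intro g
    simp [spl]
  | cons x w ih =>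
    intro g
    rw [List.length_cons, sum_range_succ']
    unfold spl
    have h1 := ih (fun l n => g (x :: l) n)
    have h2 : spl (fun v c u => g ((x :: v) ++ u) u.length) w =
        ∑ i ∈ range w.length, g (x :: w.eraseIdx i) (w.length - 1 - i) := h1
    rw [h2, add_comm]
    congr 1
    apply sum_congr rfl
    intro i _
    rw [List.eraseIdx_cons_succ]
    congr 1
    omega

theorem pr_iff {C : Type} [DecidableEq C] : ∀ (u : List C),
    (∀ x : C, Pr (some x) u none ↔ Prp (x :: u)) ∧ (Pr none u none ↔ Prp u) := by
  intro u
  induction u with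
  | nil =>
    constructor
    · intro x
      rw [Prp_cons]
      simp [Pr, ok, Prp_nil]
    · simp [Pr, ok, Prp_nil]
  | cons y u ih =>
    constructor
    · intro x
      rw [Prp_cons]
      unfold Pr
      rw [ih.1 y]
      simp [ok]
    · unfold Pr
      rw [ih.1 y]
      simp [ok]

theorem t_WREV (hDEL : S_DEL) : S_WREV := by
  intro C _ p hp w
  obtain ⟨d1, d2, d3, d4, d5⟩ := hDEL C p hp none none
  refine rev p (fun w => F p (none : Option C) w none) hp ?_ ?_ w.length w rfl
  · intro w hw
    exact d2 w (fun h => hw ((pr_iff w).2.1 h))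
  · intro w hw hne
    have h := d4 w hne ((pr_iff w).2.2 hw)
    have h2 := spl_sum w (fun l n => p ^ n * F p (none : Option C) l none)
    exact h.trans h2

end Pool.Agent.W918.CY
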